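import Pool.Agent.Y160.FT2.Stmts

/-!
# Valuations of norms
-/

set_option autoImplicit false
set_option linter.all false

open Polynomial IsDedekindDomain WithZero

namespace Pool.Agent.Y275.FT2

open Pool.Agent.Y160.FT
open Pool.Agent.Y160.SE (IsPw)

section rel

variable {A R : Type} [CommRing A] [IsDedekindDomain A] [CommRing R] [IsDedekindDomain R]
  [Algebra A R] [Module.Finite A R] [Module.IsTorsionFree A R]

/-- The exponent of `v` in `I`. -/
noncomputable def cnt (v : HeightOneSpectrum R) (I : Ideal R) : ℕ :=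
  open scoped Classical in (Associates.mk v.asIdeal).count (Associates.mk I).factors

theorem exists_split {Q J : Ideal A} (hQ : Prime Q) (hJ : J ≠ 0) :
    ∃ (s : ℕ) (J' : Ideal A), ¬ Q ∣ J' ∧ J = Q ^ s * J' := by
  have hf : FiniteMultiplicity Q J := FiniteMultiplicity.of_prime_left hQ hJ
  obtain ⟨J', h1, h2⟩ := hf.exists_eq_pow_mul_and_not_dvd
  exact ⟨_, J', h2, h1⟩

theorem relNorm_fac (Q : Ideal A) (hQ : Prime Q) :
    ∃ s : HeightOneSpectrum R → ℕ, (∀ v : HeightOneSpectrum R,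
      ¬ Q.map (algebraMap A R) ≤ v.asIdeal → s v = 0) ∧
      ∀ I : Ideal R, I ≠ 0 → ∃ (S : Finset (HeightOneSpectrum R)) (J : Ideal A),
        (∀ v, v ∉ S → cnt v I = 0) ∧ ¬ Q ∣ J ∧
        Ideal.relNorm A I = Q ^ (∑ v ∈ S, cnt v I * s v) * J := by
  classical
  have h0 : ∀ v : HeightOneSpectrum R, Ideal.relNorm A v.asIdeal ≠ 0 := fun v h =>
    v.ne_bot ((Ideal.relNorm_eq_bot_iff).1 h)
  choose s J hJ hs using fun v : HeightOneSpectrum R => exists_split hQ (h0 v)
  refine ⟨s, ?_, ?_⟩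
  · intro v hv
    by_contra hsv
    apply hv
    have h1 : Ideal.relNorm A v.asIdeal ≤ Ideal.comap (algebraMap A R) v.asIdeal :=
      Ideal.relNorm_le_comap A v.asIdeal
    -- the norm is a power of the prime below
    obtain ⟨t, ht⟩ := Ideal.exists_relNorm_eq_pow_of_isPrime v.asIdeal
      (Ideal.comap (algebraMap A R) v.asIdeal)
    have h2 : Q ∣ Ideal.comap (algebraMap A R) v.asIdeal := by
      refine hQ.dvd_of_dvd_pow (n := t) ?_
      rw [← ht, hs v]
      exact Dvd.dvd.mul_right (dvd_pow_self _ hsv) _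
    -- both are maximal
    have h3 : (Ideal.comap (algebraMap A R) v.asIdeal) ≤ Q := Ideal.le_of_dvd h2
    have h4 : (Ideal.comap (algebraMap A R) v.asIdeal) ≠ ⊥ := by
      intro hb
      have := h1
      rw [hb, le_bot_iff] at this
      exact h0 v this
    have h5 : (Ideal.comap (algebraMap A R) v.asIdeal).IsMaximal :=
      (Ideal.IsPrime.comap _).isMaximal h4
    have h6 := h5.eq_of_le (Ideal.isPrime_of_prime hQ).ne_top h3
    rw [← h6]
    exact Ideal.map_comap_le
  · intro I hI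
    have hfin : (Function.mulSupport fun v : HeightOneSpectrum R => v.maxPowDividing I).Finite :=
      Ideal.hasFiniteMulSupport hI
    refine ⟨hfin.toFinset, ∏ v ∈ hfin.toFinset, (J v) ^ cnt v I, ?_, ?_, ?_⟩
    · intro v hv
      by_contra hc
      apply hv
      rw [Set.Finite.mem_toFinset, Function.mem_mulSupport]
      intro h1
      have h2 : v.asIdeal ^ cnt v I = 1 := h1
      have h3 : v.asIdeal ∣ 1 := h2 ▸ dvd_pow_self _ hc
      exact v.prime.not_unit (isUnit_of_dvd_one h3)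
    · intro hd
      obtain ⟨v, -, hv⟩ := (Prime.dvd_finset_prod_iff hQ _).1 hd
      exact hJ v (hQ.dvd_of_dvd_pow hv)
    · have h1 := Ideal.finprod_heightOneSpectrum_factorization hI
      rw [finprod_eq_prod_of_mulSupport_toFinset_subset _ hfin (subset_refl _)] at h1
      conv_lhs => rw [← h1]
      rw [map_prod, ← Finset.prod_pow_eq_pow_sum, ← Finset.prod_mul_distrib]
      refine Finset.prod_congr rfl fun v _ => ?_
      show Ideal.relNorm A (v.asIdeal ^ cnt v I) = _
      rw [map_pow, hs v, mul_pow, ← pow_mul, mul_comm (s v)]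

theorem norm_split [Module.Free A R] {Q : A} (hQ : Prime Q) :
    ∃ s : HeightOneSpectrum R → ℕ,
      (∀ v : HeightOneSpectrum R, algebraMap A R Q ∉ v.asIdeal → s v = 0) ∧
      ∀ a : R, a ≠ 0 → ∃ (S : Finset (HeightOneSpectrum R)) (y : A),
        (∀ v, v ∉ S → cnt v (Ideal.span {a}) = 0) ∧ ¬ Q ∣ y ∧
        Algebra.norm A a = Q ^ (∑ v ∈ S, cnt v (Ideal.span {a}) * s v) * y := by
  have hQp : Prime (Ideal.span {Q} : Ideal A) := (Ideal.prime_span_singleton_iff).2 hQ
  obtain ⟨s, hs, hI⟩ := relNorm_fac (R := R) (Ideal.span {Q}) hQp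
  refine ⟨s, fun v hv => hs v fun hle => hv ?_, fun a ha => ?_⟩
  · exact hle (Ideal.mem_map_of_mem _ (Ideal.mem_span_singleton_self Q))
  · have ha' : Ideal.span {a} ≠ (0 : Ideal R) := by
      rw [Ne, Ideal.zero_eq_bot, Ideal.span_singleton_eq_bot]
      exact ha
    obtain ⟨S, J, hS, hJ, hN⟩ := hI (Ideal.span {a}) ha'
    rw [Ideal.relNorm_singleton, Algebra.intNorm_eq_norm] at hN
    set m := ∑ v ∈ S, cnt v (Ideal.span {a}) * s v with hm
    have h2 : Q ^ m ∣ Algebra.norm A a := by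
      have h3 : Algebra.norm A a ∈ Ideal.span {Q} ^ m * J := by
        rw [← hN]
        exact Ideal.mem_span_singleton_self _
      rw [← Ideal.mem_span_singleton, ← Ideal.span_singleton_pow]
      exact Ideal.mul_le_left h3
    obtain ⟨y, hy⟩ := h2
    refine ⟨S, y, hS, ?_, hy⟩
    rintro ⟨y', rfl⟩
    apply hJ
    rw [hy, ← Ideal.span_singleton_mul_span_singleton, ← Ideal.span_singleton_pow] at hN
    have h3 := mul_left_cancel₀ (pow_ne_zero _ hQp.ne_zero) hN
    rw [← h3, ← Ideal.span_singleton_mul_span_singleton]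
    exact Dvd.intro _ rfl

end rel

section pres

variable {k R : Type} [Field k] [CommRing R] [Algebra k R]

theorem pres_sub {x u : R} {F : k[X][X]} (h : Pres x u F) (β : k[X]) :
    Pres x (u - aeval x β) (F.comp (X + C β)) := by
  have key : ∀ p : k[X][X], eval₂ ((aeval x : k[X] →ₐ[k] R) : k[X] →+* R) (u - aeval x β) p =
      eval₂ ((aeval x : k[X] →ₐ[k] R) : k[X] →+* R) u (p.comp (X - C β)) := by
    intro p
    rw [eval₂_comp]
    simp
  refine ⟨fun z => ?_, fun p => ?_⟩
  · obtain ⟨p, hp⟩ := h.surj z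
    refine ⟨p.comp (X + C β), ?_⟩
    rw [key, comp_assoc]
    simpa using hp
  · rw [key, h.ker, dvd_comp_X_sub_C_iff]

/-- The structure of an algebra over `k[X]`. -/
noncomputable abbrev alg (k : Type) {R : Type} [Field k] [CommRing R] [Algebra k R] (x : R) :
    Algebra k[X] R := ((aeval x : k[X] →ₐ[k] R) : k[X] →+* R).toAlgebra

theorem adjM {x u : R} {F : k[X][X]} (h : Pres x u F) {c₀ : k} (hc : c₀ ≠ 0)
    (hF : F.leadingCoeff = C c₀) : letI := alg k x
    ∃ ad : IsAdjoinRootMonic R (C (C c₀⁻¹) * F), ad.root = u := by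
  letI := alg k x
  have hu : IsUnit (C (C c₀⁻¹) : k[X][X]) := by
    rw [isUnit_C, isUnit_C]
    exact (inv_ne_zero hc).isUnit
  have he : ∀ p : k[X][X], aeval u p = eval₂ ((aeval x : k[X] →ₐ[k] R) : k[X] →+* R) u p :=
    fun p => rfl
  refine ⟨{ map := aeval u, map_surjective := fun z => h.surj z, ker_map := ?_, monic := ?_ },
    aeval_X u⟩
  · ext p
    rw [RingHom.mem_ker, Ideal.mem_span_singleton, hu.mul_left_dvd, ← h.ker]
    rfl
  · rw [Monic, leadingCoeff_mul, leadingCoeff_C, hF, ← C_mul, inv_mul_cancel₀ hc, C_1]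

theorem minp {x u : R} [IsDomain R] {F : k[X][X]} (h : Pres x u F) {c₀ : k} (hc : c₀ ≠ 0)
    (hF : F.leadingCoeff = C c₀) : letI := alg k x
    minpoly k[X] u = C (C c₀⁻¹) * F := by
  letI := alg k x
  symm
  have hF0 : F ≠ 0 := by
    rintro rfl
    rw [leadingCoeff_zero] at hF
    exact hc (C_eq_zero.1 hF.symm)
  have hcc : (C c₀⁻¹ : k[X]) ≠ 0 := C_ne_zero.2 (inv_ne_zero hc)
  refine minpoly.unique' _ _ ?_ ?_ ?_
  · rw [Monic, leadingCoeff_mul, leadingCoeff_C, hF, ← C_mul, inv_mul_cancel₀ hc, C_1]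
  · exact (h.ker _).2 (Dvd.intro_left _ rfl)
  · intro q hq
    by_cases h0 : q = 0
    · exact Or.inl h0
    · refine Or.inr fun h1 => ?_
      have h2 : F ∣ q := (h.ker q).1 h1
      have h3 := degree_le_of_dvd h2 h0
      rw [degree_C_mul_of_mul_ne_zero] at hq
      · exact absurd hq (not_lt.2 h3)
      · exact mul_ne_zero hcc (leadingCoeff_ne_zero.2 hF0)

theorem Nx_gen [IsDomain R] {x u : R} {F : k[X][X]} (h : Pres x u F) {c₀ : k} (hc : c₀ ≠ 0)
    (hF : F.leadingCoeff = C c₀) : ∃ n : ℕ,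
    Nx (k := k) x u = (-1) ^ n * (C c₀⁻¹ * F.coeff 0) := by
  letI := alg k x
  obtain ⟨ad, had⟩ := adjM h hc hF
  refine ⟨ad.powerBasis.dim, ?_⟩
  have h1 := Algebra.PowerBasis.norm_gen_eq_coeff_zero_minpoly ad.powerBasis
  rw [IsAdjoinRootMonic.powerBasis_gen, had, minp h hc hF, coeff_C_mul] at h1
  exact h1

theorem Nx_sub [IsDomain R] {x u : R} {F : k[X][X]} (h : Pres x u F) {c₀ : k} (hc : c₀ ≠ 0)
    (hF : F.leadingCoeff = C c₀) (β : k[X]) : ∃ n : ℕ,
    Nx (k := k) x (u - aeval x β) = (-1) ^ n * (C c₀⁻¹ * F.eval β) := by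
  obtain ⟨n, hn⟩ := Nx_gen (pres_sub h β) hc (by
    rw [leadingCoeff_comp (by simp), hF]
    simp)
  refine ⟨n, ?_⟩
  rw [hn, coeff_zero_eq_eval_zero, eval_comp]
  simp

end pres

section main

variable {k R : Type} [Field k] [CommRing R] [IsDedekindDomain R] [Algebra k R]

theorem Nx_split {x u : R} {F : k[X][X]} (h : Pres x u F) {c₀ : k} (hc : c₀ ≠ 0)
    (hF : F.leadingCoeff = C c₀) {Q : k[X]} (hQ : Irreducible Q) :
    ∃ s : HeightOneSpectrum R → ℕ,
      (∀ v : HeightOneSpectrum R, aeval x Q ∉ v.asIdeal → s v = 0) ∧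
      ∀ a : R, a ≠ 0 → ∃ (S : Finset (HeightOneSpectrum R)) (y : k[X]),
        (∀ v, v ∉ S → cnt v (Ideal.span {a}) = 0) ∧ ¬ Q ∣ y ∧
        Nx (k := k) x a = Q ^ (∑ v ∈ S, cnt v (Ideal.span {a}) * s v) * y := by
  letI := alg k x
  obtain ⟨ad, had⟩ := adjM h hc hF
  haveI : Module.Free k[X] R := Module.Free.of_basis ad.powerBasis.basis
  haveI : Module.Finite k[X] R := ad.finite
  haveI : Module.IsTorsionFree k[X] R := inferInstance
  exact norm_split hQ.prime

/-- The residue ring at `u = b(x)`. -/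
theorem res1 {x u : R} {F : k[X][X]} (h : Pres x u F) (β p : k[X])
    (hp : (u - aeval x β) ∣ aeval x p) : F.eval β ∣ p := by
  obtain ⟨w, hw⟩ := hp
  obtain ⟨W, rfl⟩ := h.surj w
  have h1 : eval₂ ((aeval x : k[X] →ₐ[k] R) : k[X] →+* R) u ((X - C β) * W - C p) = 0 := by
    rw [eval₂_sub, eval₂_mul, eval₂_sub, eval₂_X, eval₂_C, eval₂_C]
    exact sub_eq_zero.2 hw.symm
  obtain ⟨q, hq⟩ := (h.ker _).1 h1
  have h2 := congrArg (eval β) hq
  rw [eval_sub, eval_mul, eval_mul, eval_sub, eval_X, eval_C, eval_C, sub_self, zero_mul,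
    zero_sub] at h2
  exact (dvd_neg).1 ⟨_, h2⟩

theorem res3 {x u : R} {F : k[X][X]} (β : k[X]) (P : k[X][X]) : (u - aeval x β) ∣
    eval₂ ((aeval x : k[X] →ₐ[k] R) : k[X] →+* R) u P - aeval x (P.eval β) := by
  obtain ⟨q, hq⟩ := X_sub_C_dvd_sub_C_eval (p := P) (a := β)
  have h1 := congrArg (eval₂ ((aeval x : k[X] →ₐ[k] R) : k[X] →+* R) u) hq
  rw [eval₂_sub, eval₂_mul, eval₂_sub, eval₂_X, eval₂_C, eval₂_C] at h1
  exact ⟨_, h1⟩

theorem res2 {x u : R} {F : k[X][X]} (h : Pres x u F) (β : k[X]) (z : R) :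
    ∃ p : k[X], (u - aeval x β) ∣ z - aeval x p := by
  obtain ⟨P, rfl⟩ := h.surj z
  exact ⟨_, res3 (F := F) β P⟩

theorem res4 {x u : R} {F : k[X][X]} (h : Pres x u F) (β : k[X]) :
    (u - aeval x β) ∣ aeval x (F.eval β) := by
  have h1 := res3 (x := x) (u := u) (F := F) β F
  rw [(h.ker F).2 dvd_rfl, zero_sub] at h1
  exact (dvd_neg).1 h1

theorem ideal_eq {x u : R} {F : k[X][X]} (h : Pres x u F) {Q b : k[X]} (hQ : Irreducible Q)
    (I : Ideal R) (hI : I ≠ ⊤) (h1 : aeval x Q ∈ I) (h2 : u - aeval x b ∈ I) :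
    I = Ideal.span {aeval x Q, u - aeval x b} := by
  apply le_antisymm
  · intro z hz
    obtain ⟨p, w, hw⟩ := res2 h b z
    have hz' : z = aeval x p + (u - aeval x b) * w := by
      rw [← hw]
      ring
    have h3 : aeval x p ∈ I := by
      have : aeval x p = z - (u - aeval x b) * w := by
        rw [← hw]
        ring
      rw [this]
      exact I.sub_mem hz (I.mul_mem_right _ h2)
    have h4 : Q ∣ p := by
      by_contra hn
      obtain ⟨α, γ, hαγ⟩ := (hQ.coprime_iff_not_dvd).2 hn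
      apply hI
      rw [Ideal.eq_top_iff_one]
      have h5 := congrArg (aeval x) hαγ
      rw [map_add, map_mul, map_mul, map_one] at h5
      rw [← h5]
      exact I.add_mem (I.mul_mem_left _ h1) (I.mul_mem_left _ h3)
    obtain ⟨p', rfl⟩ := h4
    rw [hz', map_mul]
    exact Ideal.add_mem _ (Ideal.mul_mem_right _ _ (Ideal.subset_span (Set.mem_insert _ _)))
      (Ideal.mul_mem_right _ _ (Ideal.subset_span (Set.mem_insert_of_mem _ rfl)))
  · rw [Ideal.span_le]
    rintro z (rfl | rfl)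
    · exact h1
    · exact h2

theorem unif {x u : R} {F : k[X][X]} (h : Pres x u F) {c₀ : k} (hc : c₀ ≠ 0)
    (hF : F.leadingCoeff = C c₀) {Q b : k[X]} (hQ : Irreducible Q)
    (hb : Q ∣ F.eval b) (v : HeightOneSpectrum R) (h1 : aeval x Q ∈ v.asIdeal)
    (h2 : u - aeval x b ∈ v.asIdeal) :
    ∃ β : k[X], (∀ v' : HeightOneSpectrum R, aeval x Q ∈ v'.asIdeal →
      u - aeval x β ∈ v'.asIdeal → v' = v) ∧ u - aeval x β ∈ v.asIdeal ∧
      u - aeval x β ∉ v.asIdeal ^ 2 ∧ Q ∣ F.eval β ∧ ¬ Q ^ 2 ∣ F.eval β := by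
  have hP := ideal_eq h hQ v.asIdeal v.isPrime.ne_top h1 h2
  have hne : ¬ v.asIdeal ≤ v.asIdeal ^ 2 := by
    intro hle
    have h3 : v.asIdeal ^ 2 ∣ v.asIdeal ^ 1 := by
      rw [pow_one]
      exact Ideal.dvd_iff_le.2 hle
    exact absurd ((pow_dvd_pow_iff v.prime.ne_zero v.prime.not_unit).1 h3) (by norm_num)
  -- one of the generators is a uniformizer
  have hcc : ∃ c : k[X], u - aeval x (b + c * Q) ∈ v.asIdeal ∧
      u - aeval x (b + c * Q) ∉ v.asIdeal ^ 2 := by
    by_cases h3 : u - aeval x b ∈ v.asIdeal ^ 2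
    · refine ⟨1, ?_, ?_⟩
      · rw [one_mul, map_add, ← sub_sub]
        exact Ideal.sub_mem _ h2 h1
      · rw [one_mul, map_add, ← sub_sub]
        intro h4
        apply hne
        have h5 : aeval x Q ∈ v.asIdeal ^ 2 := by
          have := Ideal.sub_mem _ h3 h4
          rwa [sub_sub_cancel] at this
        conv_lhs => rw [hP]
        rw [Ideal.span_le]
        rintro z (rfl | rfl)
        · exact h5
        · exact h3
    · refine ⟨0, ?_, ?_⟩
      · simpa using h2
      · simpa using h3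
  obtain ⟨c, hc1, hc2⟩ := hcc
  have huniq : ∀ v' : HeightOneSpectrum R, aeval x Q ∈ v'.asIdeal →
      u - aeval x (b + c * Q) ∈ v'.asIdeal → v' = v := by
    intro v' h3 h4
    have h5 : u - aeval x b ∈ v'.asIdeal := by
      have := Ideal.add_mem _ h4 (Ideal.mul_mem_left _ (aeval x c) h3)
      rw [map_add, map_mul] at this
      have he : u - aeval x b = u - (aeval x b + aeval x c * aeval x Q) + aeval x c * aeval x Q := by
        ring
      rw [he]
      exact this
    apply HeightOneSpectrum.ext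
    rw [hP, ideal_eq h hQ v'.asIdeal v'.isPrime.ne_top h3 h5]
  refine ⟨b + c * Q, huniq, hc1, hc2, ?_, ?_⟩
  · have h3 : Q ∣ F.eval (b + c * Q) - F.eval b :=
      dvd_trans ⟨c, by ring⟩ (sub_dvd_eval_sub (b + c * Q) b F)
    exact (dvd_sub_left hb).1 h3
  · rintro hd
    set β := b + c * Q with hβ
    set π := u - aeval x β with hπ
    have hπ0 : π ≠ 0 := by
      rintro h0
      exact hc2 (h0 ▸ Ideal.zero_mem _)
    -- the cofactor of `P` in `π`
    obtain ⟨J, hJ⟩ : v.asIdeal ∣ Ideal.span {π} :=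
      Ideal.dvd_span_singleton.2 hc1
    have hJv : ¬ J ≤ v.asIdeal := by
      intro hle
      apply hc2
      have h3 : Ideal.span {π} ≤ v.asIdeal ^ 2 := by
        rw [hJ, pow_two]
        exact Ideal.mul_mono_right hle
      exact h3 (Ideal.mem_span_singleton_self _)
    have hG0 : F.eval β ≠ 0 := by
      intro h0
      obtain ⟨n, hn⟩ := Nx_sub h hc hF β
      obtain ⟨s, hs, hs'⟩ := Nx_split h hc hF hQ
      obtain ⟨S, y, -, hy, hN⟩ := hs' π hπ0
      rw [hπ, hn, h0, mul_zero, mul_zero] at hN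
      rcases mul_eq_zero.1 hN.symm with h1 | h1
      · exact pow_ne_zero _ hQ.ne_zero h1
      · exact hy (h1 ▸ dvd_zero _)
    obtain ⟨H, hGH, hH⟩ :=
      (FiniteMultiplicity.of_prime_left hQ.prime hG0).exists_eq_pow_mul_and_not_dvd
    set m := multiplicity Q (F.eval β) with hm
    have hcop : IsCoprime J (Ideal.span {aeval x Q}) := by
      rw [Ideal.isCoprime_iff_sup_eq]
      by_contra hne'
      obtain ⟨M, hM, hle⟩ := Ideal.exists_le_maximal _ hne'
      have hπM : π ∈ M := by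
        have h3 : Ideal.span {π} ≤ J := by
          rw [hJ]
          exact Ideal.mul_le_right
        exact (le_sup_left.trans hle) (h3 (Ideal.mem_span_singleton_self _))
      have hQM : aeval x Q ∈ M := (le_sup_right.trans hle) (Ideal.mem_span_singleton_self _)
      have hv := huniq ⟨M, hM.isPrime, fun hb => hπ0 (by
        rw [hb] at hπM
        exact hπM)⟩ hQM hπM
      have hv' : M = v.asIdeal := congrArg HeightOneSpectrum.asIdeal hv
      exact hJv (hv' ▸ le_sup_left.trans hle)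
    have hd1 : J ∣ Ideal.span {aeval x H} := by
      have h3 : J ∣ Ideal.span {aeval x Q} ^ m * Ideal.span {aeval x H} := by
        rw [Ideal.span_singleton_pow, Ideal.span_singleton_mul_span_singleton, ← map_pow, ← map_mul,
          ← hGH]
        refine dvd_trans (Dvd.intro_left _ hJ.symm) ?_
        rw [Ideal.dvd_iff_le, Ideal.span_singleton_le_span_singleton]
        exact res4 h β
      exact (hcop.pow_right).dvd_of_dvd_mul_left h3
    have hd2 : π ∣ aeval x (Q * H) := by
      rw [← Ideal.span_singleton_le_span_singleton, ← Ideal.dvd_iff_le, hJ, map_mul,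
        ← Ideal.span_singleton_mul_span_singleton]
      exact mul_dvd_mul (Ideal.dvd_span_singleton.2 h1) hd1
    have hd3 := res1 h β _ hd2
    have hm2 : 2 ≤ m := (FiniteMultiplicity.of_prime_left hQ.prime hG0).le_multiplicity_of_pow_dvd hd
    obtain ⟨m', hm'⟩ := Nat.exists_eq_add_of_le hm2
    have hH0 : H ≠ 0 := by
      rintro rfl
      exact hH (dvd_zero _)
    rw [hGH, hm', mul_dvd_mul_iff_right hH0] at hd3
    have hd4 : Q ^ 2 ∣ Q ^ 1 := by
      rw [pow_one]
      exact dvd_trans (pow_dvd_pow Q (Nat.le_add_right 2 m')) hd3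
    exact absurd ((pow_dvd_pow_iff hQ.ne_zero hQ.not_isUnit).1 hd4) (by norm_num)

theorem val_cnt (v : HeightOneSpectrum R) {a : R} (ha : a ≠ 0) :
    v.intValuation a = exp (-(cnt v (Ideal.span {a}) : ℤ)) := by
  classical
  rw [v.intValuation_if_neg ha]
  rfl

theorem dvd_cnt {ℓ : ℕ} (v : HeightOneSpectrum R) {a : R} (ha : a ≠ 0)
    (h : IsPw ℓ (v.intValuation a)) : ℓ ∣ cnt v (Ideal.span {a}) := by
  obtain ⟨δ, hδ⟩ := h
  rw [val_cnt v ha] at hδ
  by_cases h0 : δ = 0
  · by_cases hl : ℓ = 0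
    · rw [hl, pow_zero, ← exp_zero, exp_inj] at hδ
      have : cnt v (Ideal.span {a}) = 0 := by omega
      rw [this]
      exact dvd_zero _
    · rw [h0, zero_pow hl] at hδ
      exact absurd hδ exp_ne_zero
  · have h1 : δ = exp (log δ) := (exp_log h0).symm
    rw [h1, ← exp_nsmul, exp_inj, nsmul_eq_mul] at hδ
    have h2 : (ℓ : ℤ) ∣ (cnt v (Ideal.span {a}) : ℤ) := (dvd_neg).1 ⟨_, hδ⟩
    exact_mod_cast h2

theorem ne_one {v : HeightOneSpectrum R} {a : R} : v.intValuation a ≠ 1 ↔ a ∈ v.asIdeal := by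
  rw [← v.intValuation_lt_one_iff_mem]
  exact ⟨fun h => lt_of_le_of_ne (v.intValuation_le_one a) h, fun h => h.ne⟩

theorem sum_split {S : Finset (HeightOneSpectrum R)} (f : HeightOneSpectrum R → ℕ)
    (hS : ∀ w, w ∉ S → f w = 0) (v : HeightOneSpectrum R) (ℓ : ℕ)
    (hd : ∀ w, w ≠ v → ℓ ∣ f w) : ∃ n', f v + ℓ * n' = ∑ w ∈ S, f w := by
  classical
  have h1 : ℓ ∣ ∑ w ∈ S.erase v, f w :=
    Finset.dvd_sum fun w hw => hd w (Finset.ne_of_mem_erase hw)
  obtain ⟨n', hn'⟩ := h1
  refine ⟨n', ?_⟩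
  rw [← hn']
  by_cases hv : v ∈ S
  · exact Finset.add_sum_erase S f hv
  · rw [hS v hv, Finset.erase_eq_of_notMem hv, zero_add]

/-- The valuations of norms. -/
theorem stNrmV : StNrmV := by
  intro k R _ _ _ _ x u F c₀ ℓ hc hF hd h a ha
  refine ⟨?_, ?_⟩
  · -- the norm is nonzero
    obtain ⟨s, -, hs⟩ := Nx_split h hc hF (Q := X) irreducible_X
    obtain ⟨S, y, -, hy, hN⟩ := hs a ha
    rw [hN]
    refine mul_ne_zero (pow_ne_zero _ X_ne_zero) ?_
    rintro rfl
    exact hy (dvd_zero _)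
  · intro Q hQ
    obtain ⟨s, hs, hI⟩ := Nx_split h hc hF hQ
    obtain ⟨S, y, hS, hy, hN⟩ := hI a ha
    refine ⟨?_, ?_⟩
    · intro hpw
      have h1 : ℓ ∣ ∑ v ∈ S, cnt v (Ideal.span {a}) * s v := by
        refine Finset.dvd_sum fun v _ => ?_
        by_cases hv : aeval x Q ∈ v.asIdeal
        · exact Dvd.dvd.mul_right (dvd_cnt v ha (hpw v (ne_one.2 hv))) _
        · rw [hs v hv, mul_zero]
          exact dvd_zero _
      obtain ⟨n, hn⟩ := h1
      exact ⟨n, y, hy, by rw [hN, hn]⟩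
    · intro b hb hpw v hv1 hv2
      rw [ne_one] at hv1 hv2
      -- the multiplicity of `v` is one
      have hsv : s v = 1 := by
        obtain ⟨β, huniq, hb1, hb2, hb3, hb4⟩ := unif h hc hF hQ hb v hv1 hv2
        have hπ0 : u - aeval x β ≠ 0 := by
          intro h0
          exact hb2 (h0 ▸ Ideal.zero_mem _)
        obtain ⟨S', y', hS', hy', hN'⟩ := hI _ hπ0
        obtain ⟨n', hn'⟩ := sum_split (S := S')
          (fun w => cnt w (Ideal.span {u - aeval x β}) * s w) (fun w hw => by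
            show cnt w (Ideal.span {u - aeval x β}) * s w = 0
            rw [hS' w hw, zero_mul]) v 0 (by
          intro w hw
          show 0 ∣ cnt w (Ideal.span {u - aeval x β}) * s w
          rw [zero_dvd_iff]
          by_cases hwQ : aeval x Q ∈ w.asIdeal
          · have h1 : u - aeval x β ∉ w.asIdeal := fun h1 => hw (huniq w hwQ h1)
            have h2 : w.intValuation (u - aeval x β) = 1 := by
              by_contra h2
              exact h1 (ne_one.1 h2)
            rw [val_cnt w hπ0, ← exp_zero, exp_inj] at h2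
            have h3 : cnt w (Ideal.span {u - aeval x β}) = 0 := by omega
            rw [h3, zero_mul]
          · rw [hs w hwQ, mul_zero])
        rw [← hn', zero_mul, add_zero] at hN'
        have hc1 : cnt v (Ideal.span {u - aeval x β}) = 1 := by
          have h1 := ne_one.2 hb1
          have h2 : ¬ v.intValuation (u - aeval x β) ≤ exp (-(2 : ℕ) : ℤ) := fun h2 =>
            hb2 ((v.intValuation_le_pow_iff_mem _ _).1 h2)
          rw [val_cnt v hπ0] at h1 h2
          rw [Ne, ← exp_zero, exp_inj] at h1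
          rw [exp_le_exp] at h2
          omega
        rw [hc1, one_mul] at hN'
        obtain ⟨n, hn⟩ := Nx_sub h hc hF β
        have hdv : ∀ j : ℕ, Q ^ j ∣ F.eval β ↔ Q ^ j ∣ Q ^ s v * y' := by
          intro j
          rw [← hN', hn]
          have hu1 : IsUnit ((-1 : k[X]) ^ n) := (isUnit_one.neg).pow n
          have hu2 : IsUnit (C c₀⁻¹ : k[X]) := isUnit_C.2 (inv_ne_zero hc).isUnit
          rw [hu1.dvd_mul_left, hu2.dvd_mul_left]
        have h1 : s v ≠ 0 := by
          intro h0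
          rw [h0, pow_zero, one_mul] at hdv
          exact hy' ((pow_one Q) ▸ (hdv 1).1 ((pow_one Q).symm ▸ hb3))
        have h2 : ¬ 2 ≤ s v := by
          intro h2
          exact hb4 ((hdv 2).2 (Dvd.dvd.mul_right (pow_dvd_pow Q h2) _))
        omega
      obtain ⟨n', hn'⟩ := sum_split (S := S) (fun w => cnt w (Ideal.span {a}) * s w)
        (fun w hw => by
          show cnt w (Ideal.span {a}) * s w = 0
          rw [hS w hw, zero_mul]) v ℓ (by
        intro w hw
        show ℓ ∣ cnt w (Ideal.span {a}) * s w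
        by_cases hwQ : aeval x Q ∈ w.asIdeal
        · refine Dvd.dvd.mul_right (dvd_cnt w ha (hpw w (ne_one.2 hwQ) ?_)) _
          by_contra h1
          apply hw
          apply HeightOneSpectrum.ext
          rw [ideal_eq h hQ w.asIdeal w.isPrime.ne_top hwQ (ne_one.1 h1),
            ideal_eq h hQ v.asIdeal v.isPrime.ne_top hv1 hv2]
        · rw [hs w hwQ, mul_zero]
          exact dvd_zero _)
      refine ⟨cnt v (Ideal.span {a}), _, n', y, val_cnt v ha, hy, hN, ?_⟩
      rw [← hn']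
      show _ = cnt v (Ideal.span {a}) * s v + ℓ * n'
      rw [hsv, mul_one]

end main

end Pool.Agent.Y275.FT2
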